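import Pool.Agent.N430.RT.T1

/-!
# Tate classes on fibred surfaces over all the extensions of the field of constants

Let `F` be a finite field of odd characteristic with `q` elements, `f ∈ F[t][x]` monic in `x` of degree
`2 g + 1`, and `A, B ∈ F[t]` of degree less than `N`. Let `Y → ℙ¹` be the surface over `F` fibred in
curves `y² = f(x) + A x + B`, and let `H` be the subspace `H¹(ℙ¹, j_* R¹π_* ℚ_ℓ)` of `H²(Y)`; the
complement of `H` is spanned by the classes of algebraic curves.

For every `m ≥ 1`, the Tate conjecture for divisors on `Y` over the field with `q ^ m` elements asserts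
that the multiplicity `T m` of `q ^ m` as an eigenvalue of the `m`-th power of Frobenius on `H` (the number
of the Tate classes in `H`, over the extension of degree `m`) is the rank of the group of divisor classes
over this field, up to the algebraic part; and one always has the inequality `≥`.

We prove that the proportion of the `(A, B)` such that `T m ≥ R m` for SOME `m ≥ 1` is at most
`C R^(-c R)`, for every `R ≥ 1`, with constants independent of `q`, `N` and `f`. The same is proved for
the family of all elliptic surfaces `y² = x³ + A x + B`, `deg A < 4 d`, `deg B < 6 d`.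

The cohomological interpretation (Grothendieck, Deligne, Weil) enters through the structure
`FrobeniusEigenvalues`: it lists the properties of the eigenvalues of Frobenius which are used.
-/

set_option autoImplicit false

namespace Pool.Agent.Results.MP_8ac872_ag.TateClassesAllExtensions

open Polynomial

/-- The affine points of the curve `y² = f(x) + A x + B` over the residue ring `F[t] ⧸ P`. -/
def affinePoints {F : Type} [Field F] (f : F[X][X]) (A B P : F[X]) :
    Set ((F[X] ⧸ Ideal.span {P}) × (F[X] ⧸ Ideal.span {P})) :=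
  {z | z.2 ^ 2 = (f.map (Ideal.Quotient.mk (Ideal.span {P}))).eval z.1 +
    Ideal.Quotient.mk (Ideal.span {P}) A * z.1 + Ideal.Quotient.mk (Ideal.span {P}) B}

/-- The trace of Frobenius of the curve `y² = f(x) + A x + B` at the place `P`: for `f` monic of odd
degree there is one point at infinity, and the trace is `q_P + 1` minus the number of all points. -/
noncomputable def frobeniusTrace {F : Type} [Field F] (f : F[X][X]) (A B P : F[X]) : ℝ :=
  (Nat.card F : ℝ) ^ P.natDegree - (affinePoints f A B P).ncard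

/-- The monic irreducible polynomials of degree `e` outside a finite set. -/
def goodPlaces {F : Type} [Field F] (bad : Finset F[X]) (e : ℕ) : Set F[X] :=
  {P | P.Monic ∧ Irreducible P ∧ P.natDegree = e ∧ P ∉ bad}

/-- The eigenvalues of Frobenius on the cohomology of the surface `Y → ℙ¹` fibred in curves
`y² = f(x) + A x + B`, `f` monic of degree `2 g + 1`. The number `∑ α i ^ n + ∑ β j ^ n` is the trace of
the `n`-th power of Frobenius on `H¹_c(U, R¹π_* ℚ_ℓ)`, `U` the complement of `bad` in the affine line, the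
`α i` being the eigenvalues on the quotient `H = H¹(ℙ¹, j_* R¹π_* ℚ_ℓ)`, which is pure of weight two and a
subspace of `H²(Y)`; and `formula` is the trace formula. -/
structure FrobeniusEigenvalues {F : Type} [Field F] (f : F[X][X]) (A B : F[X]) (g : ℕ) (K : ℝ) where
  /-- the dimension of the part `H` of weight two -/
  D : ℕ
  /-- the eigenvalues of Frobenius on `H` -/
  α : Fin D → ℂ
  /-- the number of the other eigenvalues -/
  D' : ℕ
  /-- the other eigenvalues -/
  β : Fin D' → ℂ
  /-- the places of bad reduction -/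
  bad : Finset F[X]
  /-- the eigenvalues of Frobenius at the good places -/
  loc : F[X] → Fin (2 * g) → ℂ
  size : (D : ℝ) ≤ K ∧ (D' : ℝ) ≤ K ∧ ∑ P ∈ bad, (P.natDegree : ℝ) ≤ K
  norm_α : ∀ i, ‖α i‖ = Nat.card F
  norm_β : ∀ j, ‖β j‖ ≤ √(Nat.card F)
  norm_loc : ∀ P, P.Monic → Irreducible P → P ∉ bad → ∀ i, ‖loc P i‖ ≤ √(Nat.card F) ^ P.natDegree
  sum_loc : ∀ P, P.Monic → Irreducible P → P ∉ bad → ∑ i, loc P i = (frobeniusTrace f A B P : ℂ)
  formula : ∀ n : ℕ, 1 ≤ n → ∑ i, α i ^ n + ∑ j, β j ^ n =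
    -∑ e ∈ n.divisors, ∑ᶠ P ∈ goodPlaces bad e, (e : ℂ) * ∑ i, loc P i ^ (n / e)

/-- The number of the Tate classes in `H` over the extension of degree `m`: the multiplicity of `q ^ m` as
an eigenvalue of the `m`-th power of Frobenius. -/
noncomputable def FrobeniusEigenvalues.tateClasses {F : Type} [Field F] {f : F[X][X]} {A B : F[X]} {g : ℕ}
    {K : ℝ} (E : FrobeniusEigenvalues f A B g K) (m : ℕ) : ℕ :=
  {i | E.α i ^ m = (Nat.card F : ℂ) ^ m}.ncard

/-- the translation of the data -/
noncomputable def FrobeniusEigenvalues.toED {F : Type} [Field F] [Fintype F] {f : F[X][X]} {A B : F[X]}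
    {g : ℕ} {K : ℝ} (E : FrobeniusEigenvalues f A B g K) : Pool.Agent.N430.RT.ED f A B (2 * g) K where
  D := E.D
  α := E.α
  D' := E.D'
  β := E.β
  bad := E.bad
  loc := E.loc
  hD := E.size.1
  hD' := E.size.2.1
  hbad := E.size.2.2
  hα := fun i => by rw [E.norm_α i, Nat.card_eq_fintype_card]
  hβ := fun j => by
    have := E.norm_β j
    rwa [Nat.card_eq_fintype_card] at this
  hloc := fun P h1 h2 h3 i => by
    have := E.norm_loc P h1 h2 h3 i
    rwa [Nat.card_eq_fintype_card] at this
  htr := fun P h1 h2 h3 => by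
    rw [E.sum_loc P h1 h2 h3]
    unfold frobeniusTrace
    rw [Nat.card_eq_fintype_card]
    rfl
  hform := fun n hn => by
    classical
    rw [E.formula n hn]
    congr 1
    refine Finset.sum_congr rfl fun e _ => ?_
    have h1 : goodPlaces E.bad e =
        (((Pool.Agent.N430.BP.FF.IR F e).filter (· ∉ E.bad) : Finset F[X]) : Set F[X]) := by
      ext P
      unfold goodPlaces
      rw [Finset.mem_coe, Finset.mem_filter, Pool.Agent.N430.BP.FF.mem_IR]
      constructor
      · rintro ⟨a, b, c, d⟩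
        exact ⟨⟨a, b, c⟩, d⟩
      · rintro ⟨⟨a, b, c⟩, d⟩
        exact ⟨a, b, c, d⟩
    rw [h1, finsum_mem_coe_finset]

lemma tor_card {D : ℕ} (α : Fin D → ℂ) {q : ℂ} (hq : q ≠ 0) (m : ℕ) :
    {i | α i ^ m = q ^ m}.ncard =
      (open Classical in Finset.univ.filter fun i => (α i / q) ^ m = 1 : Finset (Fin D)).card := by
  classical
  rw [← Set.ncard_coe_finset]
  congr 1
  ext i
  simp [div_pow, div_eq_one_iff_eq (pow_ne_zero m hq)]

lemma tateClasses_eq {F : Type} [Field F] [Fintype F] {f : F[X][X]} {A B : F[X]} {g : ℕ} {K : ℝ}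
    (E : FrobeniusEigenvalues f A B g K) (m : ℕ) :
    E.tateClasses m = (Pool.Agent.N430.RT.tor E.toED m).card := by
  have hq : (Fintype.card F : ℂ) ≠ 0 := by exact_mod_cast Fintype.card_ne_zero
  have h := tor_card E.α hq m
  unfold FrobeniusEigenvalues.tateClasses
  rw [Nat.card_eq_fintype_card]
  exact h

lemma count_eq {F : Type} [Field F] [Fintype F] {f : F[X][X]} {g : ℕ} {K : ℝ} (S : Finset (F[X] × F[X]))
    (E : ∀ v : S, FrobeniusEigenvalues f v.1.1 v.1.2 g K) (R : ℕ) (b : ℝ)
    (h : (∑ v, (open Classical in if ∃ m, 1 ≤ m ∧ R * m ≤ (Pool.Agent.N430.RT.tor (E v).toED m).card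
      then (1 : ℝ) else 0)) ≤ b) :
    ({v | ∃ m : ℕ, 1 ≤ m ∧ R * m ≤ (E v).tateClasses m}.ncard : ℝ) ≤ b := by
  classical
  refine le_trans (le_of_eq ?_) h
  have h3 : {v | ∃ m : ℕ, 1 ≤ m ∧ R * m ≤ (E v).tateClasses m} =
      ((Finset.univ.filter fun v => ∃ m : ℕ, 1 ≤ m ∧ R * m ≤ (E v).tateClasses m : Finset S) : Set S) := by
    ext v
    simp
  rw [h3, Set.ncard_coe_finset, Finset.card_eq_sum_ones]
  push_cast
  rw [Finset.sum_filter]
  refine Finset.sum_congr rfl fun v _ => ?_
  simp only [tateClasses_eq]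

/-- **Few Tate classes, over all the extensions of the field of constants at once.** -/
theorem result :
    (∀ g : ℕ, 1 ≤ g → ∀ κ : ℝ, 1 ≤ κ → ∃ c C : ℝ, 0 < c ∧ 0 < C ∧
      ∀ (F : Type) [Field F] [Finite F], ringChar F ≠ 2 → ∀ N : ℕ, 1 ≤ N →
      ∀ f : F[X][X], f.Monic → f.natDegree = 2 * g + 1 → ∀ S : Finset (F[X] × F[X]),
      (∀ v ∈ S, v.1.degree < N ∧ v.2.degree < N) →
      ∀ (E : ∀ v : S, FrobeniusEigenvalues f v.1.1 v.1.2 g (κ * N)), ∀ R : ℕ, 1 ≤ R →
        ({v | ∃ m : ℕ, 1 ≤ m ∧ R * m ≤ (E v).tateClasses m}.ncard : ℝ) ≤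
          C * (R : ℝ) ^ (-(c * R)) * (Nat.card F : ℝ) ^ (2 * N)) ∧
    ∃ c C : ℝ, 0 < c ∧ 0 < C ∧
      ∀ (F : Type) [Field F] [Finite F], ringChar F ≠ 2 → ∀ d : ℕ, 1 ≤ d →
      ∀ S : Finset (F[X] × F[X]), (∀ v ∈ S, v.1.degree < 4 * d ∧ v.2.degree < 6 * d) →
      ∀ (E : ∀ v : S, FrobeniusEigenvalues (X ^ 3 : F[X][X]) v.1.1 v.1.2 1 (28 * d)), ∀ R : ℕ, 1 ≤ R →
        ({v | ∃ m : ℕ, 1 ≤ m ∧ R * m ≤ (E v).tateClasses m}.ncard : ℝ) ≤
          C * (R : ℝ) ^ (-(c * R)) * (Nat.card F : ℝ) ^ (10 * d) := by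
  classical
  refine ⟨fun g hg κ hκ => ?_, ?_⟩
  · obtain ⟨c, C, hc, hC, H⟩ := Pool.Agent.N430.RT.all_ext (2 * g + 1) (2 * g) (by omega)
      ⟨g, rfl⟩ (by omega) hκ
    refine ⟨c, C, hc, hC, fun F _ _ h2 N hN f hf hfd S hS E R hR => ?_⟩
    have : Fintype F := Fintype.ofFinite F
    apply count_eq
    have h1 := H F h2 N hN f hf hfd R hR S (fun v => (⟨v.1.1, mem_degreeLT.2 (hS v.1 v.2).1⟩,
      ⟨v.1.2, mem_degreeLT.2 (hS v.1 v.2).2⟩)) (by
        intro v w hvw
        apply Subtype.ext
        exact Prod.ext (congrArg (fun z => (z.1 : F[X])) hvw) (congrArg (fun z => (z.2 : F[X])) hvw))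
      (fun v => (E v).toED)
    rw [Nat.card_eq_fintype_card]
    exact h1
  · obtain ⟨c, C, hc, hC, H⟩ := Pool.Agent.N430.RT.all_ext_ell
    refine ⟨c, C, hc, hC, fun F _ _ h2 d hd S hS E R hR => ?_⟩
    have : Fintype F := Fintype.ofFinite F
    apply count_eq
    have h1 := H F h2 d hd R hR S (fun v => v.1) Subtype.val_injective (fun v => hS v.1 v.2)
      (fun v => (E v).toED)
    rw [Nat.card_eq_fintype_card]
    exact h1

end Pool.Agent.Results.MP_8ac872_ag.TateClassesAllExtensions
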