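import Mathlib
import Pool.Agent.N181.TF.Stmt

/-!
# The Tate classes of the pullbacks of a fibration over the line

`k` is a field of characteristic different from `2`, for example a finite field, `k'` is a separable closure
of `k`, and `s = q(t)` is a polynomial of odd degree `n` with `q' ≠ 0`, so that `k(s) ⊂ k(t)` and
`k'(s) ⊂ k'(t)` (`IsCover`; `K₀ = k(s)`, `F₀ = k'(s)`, `K = k(t)`, `F = k'(t)`, and `Ω = Sep F` is a separable
closure of `F`). Let `V` be a continuous representation of the Galois group of `k(s)` on `ℤ₂ ^ r` which is
lower triangular modulo `2` (if the image of the Galois group modulo `2` is a `2`-group there is a basis with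
this property) and which is geometrically unramified at the finite places which do not divide `D ∈ k[s]`
(`IsRep`; the ramification of `V` at the places dividing `D` and at infinity is arbitrary).

For example, `V` is the 2-adic Tate module of the Jacobian of the generic fibre of a fibration `Y₀ → ℙ¹` over
`k` with smooth fibres outside `D ∞`. For a surface `Y₀` over a finite field `k`, the classes in
`H²(Y₀, ℚ₂(1))` over `k'` which are fixed by the Galois group of `k` are sums of classes of components of
fibres, of a multisection, and of classes in `H¹(k'(s), V ⊗ ℚ)`, fixed by Galois and unramified outside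
`D ∞`; the Tate conjecture says that the last ones (the space of `IsClass`) are the Kummer classes of the points of
the Jacobian over `k(s)`, with 2-adic coefficients.

**Theorem.** If there is one point of the `t`-line above each point of `D = 0`, as closed points over `k`,
with odd ramification index (`OnePt`: inert points are allowed, and so are totally ramified points), then
the restriction is an isomorphism from the space of these classes of `V` over `k'(s)`, fixed by the Galois
group of `k(s)`, onto the space of the classes over `k'(t)` fixed by the Galois group of `k(t)` (after the
tensor product with `ℚ`): there are no new Tate classes (`RestrictionIso`). So if the classes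
over `k(s)` have multiples in a set `A₀` (the Kummer classes), then those over `k(t)` have multiples in any set
`A` which contains the restrictions of the elements of `A₀`: the Tate conjecture for the fibration `Y₀`
implies it for its pullback `Y` (`ClassesFrom`). The degree of `q` is not bounded and there is no condition on `V` besides
the condition modulo `2`; the geometric genus of `Y` and the number of the geometric bad
fibres grow with `n`.

The proof: for a class `c` over `k'(t)`, the class `x = n c - res (tr c)` has transfer zero. One shows that
its reductions along a composition series of the module modulo `2`, `4`, ... are trivial: they are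
characters of order two of the Galois group of `k'(t)`, unramified outside `D ∞` and fixed by the Galois
group of `k(t)`. By Kummer theory and the hypothesis `OnePt`, such a character is the restriction of a
character of the Galois group of `k'(s)` (this is where the invariance is used), and such a
character is determined by its transfer since `n` is odd.
-/

set_option autoImplicit false
set_option linter.all false

open Polynomial
open scoped Classical

namespace Pool.Agent.Results.MP_8ac872_ag.TateClassesOfPullbacks

open Pool.Agent.N181.TF (OnePt onePt_pow towers)
open Pool.Agent.N181.TF.St (NoNewClasses noNew)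

theorem result :
    -- the theorem
    (∀ (k : Type) [Field k] (q D : k[X]), (2 : k) ≠ 0 → derivative q ≠ 0 → Odd q.natDegree →
      D ≠ 0 → OnePt D q → NoNewClasses q D) ∧
    -- the coverings `s = t ^ n + c`
    (∀ (k : Type) [Field k] (D : k[X]), D ≠ 0 → D.Splits → ∀ n : ℕ, Odd n → (n : k) ≠ 0 →
      ∀ c : k, (∀ ξ, D.IsRoot ξ → ξ = c ∨ ∀ ℓ : ℕ, ℓ.Prime → ℓ ∣ n → ∀ y : k, y ^ ℓ ≠ ξ - c) →
      OnePt D (X ^ n + C c)) ∧
    -- infinite towers over finite fields
    (∀ (k : Type) [Field k] [Finite k] (D : k[X]), D ≠ 0 → D.Splits → ∀ ℓ : ℕ, ℓ.Prime → ℓ ≠ 2 →
      D.natDegree < ℓ → ℓ ∣ Nat.card k - 1 → D.natDegree * ℓ < Nat.card k →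
      ∃ c : k, ∀ j : ℕ, OnePt D (X ^ ℓ ^ j + C c)) := by
  refine ⟨?_, ?_, ?_⟩
  · intro k _ q D h2 hq hodd hD hO
    exact noNew h2 hq hodd hD hO
  · intro k _ D h0 hs n hodd hk c hc
    exact onePt_pow h0 hs hodd hk hc
  · intro k _ _ D h0 hs ℓ hℓ h2 hdeg hd hq
    exact towers h0 hs hℓ h2 hdeg hd hq

end Pool.Agent.Results.MP_8ac872_ag.TateClassesOfPullbacks
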