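import Mathlib
import Pool.Agent.N144.OF.Main3

/-!
# The Tate conjecture for divisors on 100 percent of the reductions, from one reduction

Let `X` be a smooth projective variety over the number field `K` and `N = NS(X_K̄) ⊗ ℚ`, of dimension `m`,
on which `G_K` acts through a finite group. Then `H^2(X_K̄, ℚ_ℓ(1)) = (N ⊗ ℚ_ℓ) ⊕ T_ℓ`, `T_ℓ` the orthogonal
complement for the form given by an ample class. At the places `v ∉ S` (of good reduction) the
characteristic polynomial `P_v` of the geometric Frobenius on `T_ℓ` is in `ℚ[X]` and does not depend on `ℓ`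
(Deligne). The second cohomology of the reduction `X_v` is that of `X_K̄`; the classes of divisors on `X_v`
are combinations of the specialisations of those of `X_K̄` and perhaps of new ones.

**Theorem.** There is an open normal subgroup `U` of `G_K`, that is a finite Galois extension `K'` of `K`,
with `K' = K` if the algebraic monodromy group of `T_ℓ₀` is connected for one prime number `ℓ₀`, such
that: if there is ONE place `v₀ ∉ S` (prime to `ℓ₀`) for which no root of `P_{v₀}` is a root of unity (that
is, the order of the pole of the zeta function over the finite extensions of the residue field at `v₀`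
is never larger than `m`), then
* the Tate conjecture for divisors holds for `X` over all finite extensions of `K`, for all `ℓ`;
* for `100` percent of the places `v` of `K` which split completely in `K'` the Tate conjecture for
  divisors holds for `X_v` over all finite extensions of the residue field and all `ℓ`: the divisor
  classes span the invariants in `H^2(ℚ_ℓ(1))` and their dimension is the multiplicity of the
  eigenvalue; it is equal to the dimension of the Frobenius invariants of `N`, so the geometric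
  Picard number of `X_v` is that of `X`;
* the same is true for `100` percent of the places whose Frobenius elements in `Gal(K'/K)` are
  conjugate to powers of that of `v₀`, so for a set of places of lower density at least
  `1 / [K' : K]`.

No assumption on the Mumford-Tate group or the image of the Galois group is made, and the Hodge numbers
are arbitrary: for `h^{2,0} > 1` nothing is known on the Tate conjecture for the reductions. The condition is
on one zeta function. It can be satisfied only if the dimension of `T_ℓ` is even (if it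
is odd, then `1` or `-1` is a root of all `P_v`).

The proof. The multiplicity of the roots of unity is given by a polynomial class function on `G_K`, since
the roots of unity among the roots of `P_v` have bounded order. By the Noetherian property there is `U`
such that on every coset of `U` a polynomial function is zero or its zeros have Haar measure zero;
Chebotarev's theorem gives the densities.
-/

set_option autoImplicit false

namespace Pool.Agent.Results.MP_8ac872_ag.TateFromOneReduction

open Polynomial Filter Topology NumberField IsDedekindDomain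

/-- the absolute Galois group of `K`, with its profinite (Krull) topology -/
abbrev AbsoluteGaloisGroup (K : Type) [Field K] : Type := Gal(AlgebraicClosure K/K)

/-- `σ` is an (arithmetic) Frobenius element at the prime `v` of the number field `K`: for some prime
`Q` of the algebraic closure above `v` it acts on the residue field as `x ↦ x ^ N(v)` -/
def IsFrobenius {K : Type} [Field K] [NumberField K] (v : HeightOneSpectrum (𝓞 K))
    (σ : AbsoluteGaloisGroup K) : Prop :=
  ∃ Q : Ideal (𝓞 (AlgebraicClosure K)), Q.IsMaximal ∧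
    Q.comap (algebraMap (𝓞 K) (𝓞 (AlgebraicClosure K))) = v.asIdeal ∧
    ∀ x : 𝓞 (AlgebraicClosure K), σ • x - x ^ Ideal.absNorm v.asIdeal ∈ Q

variable {K : Type} [Field K] [NumberField K] {m n : ℕ}

/-- `τ` is the representation on `T_ℓ`: it is continuous and for all `v ∉ S` which are prime to `ℓ`
the characteristic polynomial of the geometric Frobenius elements `σ⁻¹` (`σ` arithmetic) at `v` is
`P v` -/
def IsTranscendentalPart (S : Set (HeightOneSpectrum (𝓞 K))) (P : HeightOneSpectrum (𝓞 K) → ℚ[X])
    (ℓ : ℕ) [Fact ℓ.Prime] (τ : AbsoluteGaloisGroup K →* Matrix (Fin n) (Fin n) ℚ_[ℓ]) : Prop :=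
  Continuous τ ∧ ∀ v ∉ S, (ℓ : 𝓞 K) ∉ v.asIdeal → ∀ σ : AbsoluteGaloisGroup K, IsFrobenius v σ →
    (τ σ⁻¹).charpoly = (P v).map (algebraMap ℚ ℚ_[ℓ])

/-- the matrix of `σ` on `H^2(ℚ_ℓ(1)) = (N ⊗ ℚ_ℓ) ⊕ T_ℓ` -/
noncomputable def onH2 (α : AbsoluteGaloisGroup K →* Matrix (Fin m) (Fin m) ℚ) {ℓ : ℕ} [Fact ℓ.Prime]
    (τ : AbsoluteGaloisGroup K →* Matrix (Fin n) (Fin n) ℚ_[ℓ]) (σ : AbsoluteGaloisGroup K) :
    Matrix (Fin m ⊕ Fin n) (Fin m ⊕ Fin n) ℚ_[ℓ] :=
  Matrix.fromBlocks ((α σ).map (algebraMap ℚ ℚ_[ℓ])) 0 0 (τ σ)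

/-- the vectors which are fixed by the `k`-th power of the matrix `M` -/
def invariants {F r : Type} [Field F] [Fintype r] [DecidableEq r] (M : Matrix r r F) (k : ℕ) :
    Submodule F (r → F) :=
  Module.End.eigenspace (Matrix.toLin' M ^ k) 1

/-- the multiplicity of the eigenvalue `1` of the `k`-th power of the matrix `M` -/
noncomputable def multiplicity {F r : Type} [Field F] [Fintype r] [DecidableEq r] (M : Matrix r r F)
    (k : ℕ) : ℕ :=
  (Matrix.toLin' M ^ k).charpoly.rootMultiplicity 1

/-- `D` is as the span of the classes of the divisors on `X_v` which are defined over the extension of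
degree `k` of the residue field: its elements are fixed by the `k`-th power of Frobenius (the matrix `M`), and
it contains the specialisations of the elements of `N` which are fixed by the `k`-th power of Frobenius
(with the matrix `A` on `N`) -/
def IsDivisorSpan {F : Type} [Field F] [Algebra ℚ F] (A : Matrix (Fin m) (Fin m) ℚ)
    (M : Matrix (Fin m ⊕ Fin n) (Fin m ⊕ Fin n) F) (k : ℕ) (D : Submodule F (Fin m ⊕ Fin n → F)) : Prop :=
  (∀ x ∈ D, (Matrix.toLin' M ^ k) x = x) ∧
    ∀ y : Fin m → ℚ, (Matrix.toLin' A ^ k) y = y →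
      Sum.elim (fun i => algebraMap ℚ F (y i)) (0 : Fin n → F) ∈ D

/-- the Tate statement for the matrices `A` of Frobenius on `N` and `M` on `H^2(ℚ_ℓ(1))` (`F = ℚ_ℓ`), over the
extension of degree `k`: the span `D` of the classes of divisors is the space of the invariants, its
dimension is the multiplicity of the eigenvalue `1`, and it is also the dimension of the space of
invariants in `N` -/
def TateStatement {F : Type} [Field F] [Algebra ℚ F] (A : Matrix (Fin m) (Fin m) ℚ)
    (M : Matrix (Fin m ⊕ Fin n) (Fin m ⊕ Fin n) F) (k : ℕ) : Prop :=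
  ∀ D : Submodule F (Fin m ⊕ Fin n → F), IsDivisorSpan A M k D →
    D = invariants M k ∧
    Module.finrank F D = multiplicity M k ∧
    Module.finrank F D = Module.finrank ℚ (invariants A k)

/-- **the Tate conjecture for divisors on the reduction at `v`**: for all `ℓ` prime to `v` and all `k > 0` the
Tate statement for the geometric Frobenius over the extension of degree `k` of the residue field -/
def IsTateAt (α : AbsoluteGaloisGroup K →* Matrix (Fin m) (Fin m) ℚ)
    (τ : ∀ (ℓ : ℕ) [Fact ℓ.Prime], AbsoluteGaloisGroup K →* Matrix (Fin n) (Fin n) ℚ_[ℓ])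
    (v : HeightOneSpectrum (𝓞 K)) : Prop :=
  ∀ (ℓ : ℕ) [Fact ℓ.Prime], (ℓ : 𝓞 K) ∉ v.asIdeal → ∀ σ : AbsoluteGaloisGroup K, IsFrobenius v σ →
    ∀ k : ℕ, 0 < k → TateStatement (α σ⁻¹) (onH2 α (τ ℓ) σ⁻¹) k

/-- the Tate conjecture for divisors on `X` over the finite extensions of `K`: there are no Tate
classes in `T_ℓ`, no vectors fixed by an open subgroup -/
def HasNoTateClasses (τ : ∀ (ℓ : ℕ) [Fact ℓ.Prime], AbsoluteGaloisGroup K →* Matrix (Fin n) (Fin n) ℚ_[ℓ]) :
    Prop :=
  ∀ (ℓ : ℕ) [Fact ℓ.Prime] (W : Subgroup (AbsoluteGaloisGroup K)), IsOpen (W : Set (AbsoluteGaloisGroup K)) →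
    ∀ x : Fin n → ℚ_[ℓ], (∀ w ∈ W, (τ ℓ w).mulVec x = x) → x = 0

/-- the algebraic monodromy group is connected: a polynomial relation between the matrix entries which
holds on an open subgroup holds everywhere -/
def HasConnectedMonodromy {ℓ : ℕ} [Fact ℓ.Prime]
    (τ : AbsoluteGaloisGroup K →* Matrix (Fin n) (Fin n) ℚ_[ℓ]) : Prop :=
  ∀ (F : MvPolynomial (Fin n × Fin n) ℚ_[ℓ]) (U : Subgroup (AbsoluteGaloisGroup K)),
    IsOpen (U : Set (AbsoluteGaloisGroup K)) →
    (∀ u ∈ U, MvPolynomial.eval (fun x => τ u x.1 x.2) F = 0) →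
    ∀ g, MvPolynomial.eval (fun x => τ g x.1 x.2) F = 0

/-- some Frobenius element at `v` has a conjugate in the coset `γ U` -/
def FrobeniusInCoset (U : Subgroup (AbsoluteGaloisGroup K)) (γ : AbsoluteGaloisGroup K)
    (v : HeightOneSpectrum (𝓞 K)) : Prop :=
  ∃ σ : AbsoluteGaloisGroup K, (∃ t : AbsoluteGaloisGroup K, γ⁻¹ * (t * σ * t⁻¹) ∈ U) ∧ IsFrobenius v σ

/-- some Frobenius element at `v` is in `U` -/
def FrobeniusIn (U : Subgroup (AbsoluteGaloisGroup K)) (v : HeightOneSpectrum (𝓞 K)) : Prop :=
  ∃ σ ∈ U, IsFrobenius v σ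

/-- the number of the places `v` with `N(v) ≤ N` and the property `A`, divided by `π(N)` -/
noncomputable def proportion (A : HeightOneSpectrum (𝓞 K) → Prop) (N : ℕ) : ℝ :=
  (Nat.card {v : HeightOneSpectrum (𝓞 K) // Ideal.absNorm v.asIdeal ≤ N ∧ A v} : ℝ) /
    (Nat.primeCounting N : ℝ)

/-- the set of places with the property `A` has natural density zero -/
def HasDensityZero (A : HeightOneSpectrum (𝓞 K) → Prop) : Prop := Tendsto (proportion A) atTop (𝓝 0)

/-- the set of places with the property `A` has lower natural density at least `δ` -/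
def HasLowerDensityAtLeast (A : HeightOneSpectrum (𝓞 K) → Prop) (δ : ℝ) : Prop :=
  ∀ ε : ℝ, 0 < ε → ∀ᶠ N : ℕ in atTop, δ - ε ≤ proportion A N

/-- the number of the complex roots (with multiplicities) which are roots of unity -/
noncomputable def numberOfRootsOfUnity (P : ℚ[X]) : ℕ := by
  classical
  exact ((P.map (algebraMap ℚ ℂ)).roots.countP fun a => ∃ k : ℕ, 0 < k ∧ a ^ k = 1)

/-- **The Tate conjecture for divisors on 100 percent of the reductions, from one reduction.** -/
theorem result (K : Type) [Field K] [NumberField K] (m n : ℕ)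
    (S : Set (HeightOneSpectrum (𝓞 K))) (hS : S.Finite) (P : HeightOneSpectrum (𝓞 K) → ℚ[X])
    (α : AbsoluteGaloisGroup K →* Matrix (Fin m) (Fin m) ℚ) (hα : (Set.range α).Finite)
    (τ : ∀ (ℓ : ℕ) [Fact ℓ.Prime], AbsoluteGaloisGroup K →* Matrix (Fin n) (Fin n) ℚ_[ℓ])
    (hτ : ∀ (ℓ : ℕ) [Fact ℓ.Prime], IsTranscendentalPart S P ℓ (τ ℓ)) (ℓ₀ : ℕ) [Fact ℓ₀.Prime] :
    ∃ U : Subgroup (AbsoluteGaloisGroup K), U.Normal ∧ IsOpen (U : Set (AbsoluteGaloisGroup K)) ∧
      (HasConnectedMonodromy (τ ℓ₀) → U = ⊤) ∧
      ∀ v₀ ∉ S, (ℓ₀ : 𝓞 K) ∉ v₀.asIdeal → numberOfRootsOfUnity (P v₀) = 0 →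
        ∀ σ₀, IsFrobenius v₀ σ₀ →
          HasNoTateClasses τ ∧
          HasDensityZero (fun v => FrobeniusIn U v ∧ ¬ IsTateAt α τ v) ∧
          (∀ k : ℕ, 0 < k →
            HasDensityZero (fun v => FrobeniusInCoset U (σ₀ ^ k) v ∧ ¬ IsTateAt α τ v)) ∧
          HasLowerDensityAtLeast (IsTateAt α τ) (1 / (U.index : ℝ)) := by
  obtain ⟨U, hN, hU, hmin, htop⟩ := Pool.Agent.N144.OF.exists_sub (Pool.Agent.N144.OF.dual (τ ℓ₀))
  refine ⟨U, hN, hU, fun h => htop (Pool.Agent.N144.OF.dual_min _ h), ?_⟩
  intro v₀ hv₀ hℓv h0 σ₀ hσ₀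
  have hidx : 0 < U.index := Nat.pos_of_ne_zero (by
    have hfin : Finite (AbsoluteGaloisGroup K ⧸ U) := Subgroup.quotient_finite_of_isOpen _ hU
    have : U.FiniteIndex := Subgroup.finiteIndex_iff_finite_quotient.mpr hfin
    exact Subgroup.FiniteIndex.index_ne_zero)
  have h1 := Pool.Agent.N144.OF.unity_main hS hτ ℓ₀ U hU hmin 0 zero_le_one (IsTateAt α τ)
    (fun v hv h => Pool.Agent.N144.OF.tateAt_of hα hτ hv (Nat.le_zero.mp h)) v₀ hv₀ hℓv h0.le σ₀ hσ₀
  have h2 := Pool.Agent.N144.OF.unity_main hS hτ ℓ₀ U hU hmin 0 zero_le_one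
    (fun v => v ∉ S ∧ Pool.Agent.N144.OF.cnt ℂ (Pool.Agent.N144.OF.expo n) (P v) = 0)
    (fun v hv h => ⟨hv, Nat.le_zero.mp h⟩) v₀ hv₀ hℓv h0.le σ₀ hσ₀
  refine ⟨?_, h1.2.1, h1.1, h1.2.2⟩
  intro ℓ _ W hW x hx
  exact Pool.Agent.N144.OF.no_inv hτ (1 / (U.index : ℝ))
    (one_div_pos.mpr (by exact_mod_cast hidx)) h2.2.2 ℓ W hW x hx

end Pool.Agent.Results.MP_8ac872_ag.TateFromOneReduction
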